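import Pool.Agent.Helper4.UpLoc.Defs

/-!
# Part B: every bounded-degree outerplanar DAG is a subgraph of a tree of triangles
-/

namespace Pool.Agent.Helper84.UpLoc

open Pool.Agent.Helper4.UpLoc

variable {V : Type}

/-- The pair `{x, y}` directed by the rank `r`. -/
def ori (r : V → ℕ) (x y : V) : V × V := if r x < r y then (x, y) else (y, x)

lemma ori_pos {r : V → ℕ} {x y : V} (h : r x < r y) : ori r x y = (x, y) := by
  simp [ori, h]

lemma ori_neg {r : V → ℕ} {x y : V} (h : r y < r x) : ori r x y = (y, x) := by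
  simp [ori, not_lt.2 h.le]

lemma ori_comm {r : V → ℕ} {x y : V} (h : r x ≠ r y) : ori r x y = ori r y x := by
  rcases lt_or_gt_of_ne h with h | h
  · rw [ori_pos h, ori_neg h]
  · rw [ori_neg h, ori_pos h]

lemma inc_ori (r : V → ℕ) (x y w : V) : Inc w (ori r x y) ↔ w = x ∨ w = y := by
  unfold Inc ori
  split_ifs <;> simp [or_comm]

/-- Gluing the two trees hanging at `{x,m}` and `{m,y}` to a tree hanging at `{x,y}`. -/
lemma combine (r : V → ℕ) (x y m : V) (hxy : r x ≠ r y) (hxm : r x ≠ r m) (hmy : r m ≠ r y)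
    (tl tr : Tr V) :
    ∃ t : Tr V, t.labels.Perm (m :: (tl.labels ++ tr.labels)) ∧
      (t.edges (ori r x y).1 (ori r x y).2).Perm
        (ori r x m :: ori r m y ::
          (tl.edges (ori r x m).1 (ori r x m).2 ++ tr.edges (ori r m y).1 (ori r m y).2)) := by
  have sw : ∀ (e f : V × V) (l1 l2 : List (V × V)),
      (e :: f :: (l1 ++ l2)).Perm (f :: e :: (l2 ++ l1)) := fun e f l1 l2 =>
    (List.Perm.swap f e _).trans
      (List.Perm.cons _ (List.Perm.cons _ List.perm_append_comm))
  have sw' : ∀ (l1 l2 : List V),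
      (m :: (l1 ++ l2)).Perm (m :: (l2 ++ l1)) := fun l1 l2 =>
    List.Perm.cons _ List.perm_append_comm
  rcases lt_or_gt_of_ne hxy with h1 | h1
  · rcases lt_or_gt_of_ne hxm with h2 | h2
    · rcases lt_or_gt_of_ne hmy with h3 | h3
      · refine ⟨Tr.M m tl tr, List.Perm.refl _, ?_⟩
        rw [ori_pos h1, ori_pos h2, ori_pos h3]
        exact List.Perm.refl _
      · refine ⟨Tr.U m tl tr, List.Perm.refl _, ?_⟩
        rw [ori_pos h1, ori_pos h2, ori_neg h3]
        exact List.Perm.refl _
    · have h3 : r m < r y := h2.trans h1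
      refine ⟨Tr.D m tr tl, sw' _ _, ?_⟩
      rw [ori_pos h1, ori_neg h2, ori_pos h3]
      exact sw _ _ _ _
  · rcases lt_or_gt_of_ne hxm with h2 | h2
    · have h3 : r y < r m := lt_trans h1 h2
      refine ⟨Tr.U m tr tl, sw' _ _, ?_⟩
      rw [ori_neg h1, ori_pos h2, ori_neg h3]
      exact sw _ _ _ _
    · rcases lt_or_gt_of_ne hmy with h3 | h3
      · refine ⟨Tr.D m tl tr, List.Perm.refl _, ?_⟩
        rw [ori_neg h1, ori_neg h2, ori_pos h3]
        exact List.Perm.refl _
      · refine ⟨Tr.M m tr tl, sw' _ _, ?_⟩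
        rw [ori_neg h1, ori_neg h2, ori_neg h3]
        exact sw _ _ _ _

open Classical in
/-- number of neighbours of `i` in the open interval `(i,j)` -/
noncomputable def R (Adj : ℕ → ℕ → Prop) (i j : ℕ) : ℕ :=
  ((Finset.Ioo i j).filter fun k => Adj i k).card

open Classical in
/-- number of neighbours of `j` in the open interval `(i,j)` -/
noncomputable def L (Adj : ℕ → ℕ → Prop) (i j : ℕ) : ℕ :=
  ((Finset.Ioo i j).filter fun k => Adj j k).card

/-- The inductive statement. -/
def Good [DecidableEq V] (s : ℕ → V) (r : V → ℕ) (Adj : ℕ → ℕ → Prop) (Δ : ℕ) (bit : Bool)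
    (i j : ℕ) (t : Tr V) : Prop :=
  (j = i + 1 → t = Tr.leaf) ∧
  t.labels.Nodup ∧
  (∀ v, v ∈ t.labels ↔ ∃ k, i < k ∧ k < j ∧ v = s k) ∧
  (∀ p q, i ≤ p → p < q → q ≤ j → Adj p q → (p = i ∧ q = j) ∨
    ori r (s p) (s q) ∈ t.edges (ori r (s i) (s j)).1 (ori r (s i) (s j)).2) ∧
  (bit = false → deg (t.edges (ori r (s i) (s j)).1 (ori r (s i) (s j)).2) (s i)
      ≤ 2 * R Adj i j + 1) ∧
  (deg (t.edges (ori r (s i) (s j)).1 (ori r (s i) (s j)).2) (s i) ≤ 2 * R Adj i j + 2) ∧
  (bit = true → deg (t.edges (ori r (s i) (s j)).1 (ori r (s i) (s j)).2) (s j)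
      ≤ 2 * L Adj i j + 1) ∧
  (deg (t.edges (ori r (s i) (s j)).1 (ori r (s i) (s j)).2) (s j) ≤ 2 * L Adj i j + 2) ∧
  (∀ k, i < k → k < j →
    deg (t.edges (ori r (s i) (s j)).1 (ori r (s i) (s j)).2) (s k) ≤ 2 * Δ + 6) ∧
  (∀ w, (∀ k, i ≤ k → k ≤ j → w ≠ s k) →
    deg (t.edges (ori r (s i) (s j)).1 (ori r (s i) (s j)).2) w = 0)

lemma R_mono {Adj : ℕ → ℕ → Prop} {i m j : ℕ} (h : m ≤ j) : R Adj i m ≤ R Adj i j := by
  classical
  unfold R
  apply Finset.card_le_card
  intro k hk
  simp only [Finset.mem_filter, Finset.mem_Ioo] at hk ⊢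
  exact ⟨⟨hk.1.1, hk.1.2.trans_le h⟩, hk.2⟩

lemma L_mono {Adj : ℕ → ℕ → Prop} {i m j : ℕ} (h : i ≤ m) : L Adj m j ≤ L Adj i j := by
  classical
  unfold L
  apply Finset.card_le_card
  intro k hk
  simp only [Finset.mem_filter, Finset.mem_Ioo] at hk ⊢
  exact ⟨⟨h.trans_lt hk.1.1, hk.1.2⟩, hk.2⟩

lemma R_lt {Adj : ℕ → ℕ → Prop} {i m j : ℕ} (h0 : i < m) (h : m < j) (ha : Adj i m) :
    R Adj i m + 1 ≤ R Adj i j := by
  classical
  unfold R
  have : insert m ((Finset.Ioo i m).filter fun k => Adj i k) ⊆
      (Finset.Ioo i j).filter fun k => Adj i k := by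
    intro k hk
    simp only [Finset.mem_insert, Finset.mem_filter, Finset.mem_Ioo] at hk ⊢
    rcases hk with rfl | hk
    · exact ⟨⟨h0, h⟩, ha⟩
    · exact ⟨⟨hk.1.1, hk.1.2.trans h⟩, hk.2⟩
  have h2 := Finset.card_le_card this
  rwa [Finset.card_insert_of_notMem (by simp)] at h2

lemma L_lt {Adj : ℕ → ℕ → Prop} {i m j : ℕ} (h0 : i < m) (h : m < j) (ha : Adj j m) :
    L Adj m j + 1 ≤ L Adj i j := by
  classical
  unfold L
  have : insert m ((Finset.Ioo m j).filter fun k => Adj j k) ⊆
      (Finset.Ioo i j).filter fun k => Adj j k := by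
    intro k hk
    simp only [Finset.mem_insert, Finset.mem_filter, Finset.mem_Ioo] at hk ⊢
    rcases hk with rfl | hk
    · exact ⟨⟨h0, h⟩, ha⟩
    · exact ⟨⟨h0.trans hk.1.1, hk.1.2⟩, hk.2⟩
  have h2 := Finset.card_le_card this
  rwa [Finset.card_insert_of_notMem (by simp)] at h2

/-- The step: gluing at the apex `m`. -/
lemma good_step [DecidableEq V] {n : ℕ} (s : ℕ → V) (r : V → ℕ) (Adj : ℕ → ℕ → Prop) (Δ : ℕ)
    (hs : ∀ a b, a < n → b < n → s a = s b → a = b) (hr : Function.Injective r)
    (hΔ : ∀ i m j, i < m → m < j → j < n → L Adj i m + R Adj m j ≤ Δ)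
    (bit : Bool) (i m j : ℕ) (him : i < m) (hmj : m < j) (hjn : j < n)
    (tl tr : Tr V) (hl : Good s r Adj Δ false i m tl) (hrr : Good s r Adj Δ true m j tr)
    (hcross : ∀ p q, i ≤ p → p < q → q ≤ j → Adj p q → (p = i ∧ q = j) ∨ q ≤ m ∨ m ≤ p)
    (hbit0 : bit = false → Adj i m ∨ m = i + 1)
    (hbit1 : bit = true → Adj j m ∨ j = m + 1) :
    ∃ t, Good s r Adj Δ bit i j t := by
  have hin : i < n := by omega
  have hmn : m < n := by omega
  have hne : ∀ {a b}, a < n → b < n → a ≠ b → r (s a) ≠ r (s b) := fun {a b} ha hb hab h =>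
    hab (hs a b ha hb (hr h))
  have hsne : ∀ {a b}, a < n → b < n → a ≠ b → s a ≠ s b := fun {a b} ha hb hab h =>
    hab (hs a b ha hb h)
  obtain ⟨t, ht1, ht2⟩ := combine r (s i) (s j) (s m) (hne hin hjn (by omega))
    (hne hin hmn (by omega)) (hne hmn hjn (by omega)) tl tr
  obtain ⟨hl0, hl1, hl2, hl3, hl4, hl5, hl6, hl7, hl8, hl9⟩ := hl
  obtain ⟨hr0, hr1, hr2, hr3, hr4, hr5, hr6, hr7, hr8, hr9⟩ := hrr
  have hdeg : ∀ w, deg (t.edges (ori r (s i) (s j)).1 (ori r (s i) (s j)).2) w =
      (if w = s i ∨ w = s m then 1 else 0) + (if w = s m ∨ w = s j then 1 else 0)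
      + deg (tl.edges (ori r (s i) (s m)).1 (ori r (s i) (s m)).2) w
      + deg (tr.edges (ori r (s m) (s j)).1 (ori r (s m) (s j)).2) w := by
    intro w
    unfold deg
    rw [ht2.countP_eq, List.countP_cons, List.countP_cons, List.countP_append]
    simp only [decide_eq_true_eq, inc_ori]
    ring
  refine ⟨t, ?_, ?_, ?_, ?_, ?_, ?_, ?_, ?_, ?_, ?_⟩
  · intro h; omega
  · rw [ht1.nodup_iff, List.nodup_cons, List.nodup_append]
    refine ⟨?_, hl1, hr1, ?_⟩
    · rw [List.mem_append, hl2, hr2]
      rintro (⟨k, h1, h2, h3⟩ | ⟨k, h1, h2, h3⟩)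
      · exact hsne hmn (by omega) (by omega) h3
      · exact hsne hmn (by omega) (by omega) h3
    · intro a ha b hb hab
      rw [hl2] at ha
      rw [hr2] at hb
      obtain ⟨k, h1, h2, h3⟩ := ha
      obtain ⟨k', h1', h2', h3'⟩ := hb
      rw [h3, h3'] at hab
      exact hsne (by omega) (by omega) (by omega) hab
  · intro v
    rw [ht1.mem_iff, List.mem_cons, List.mem_append, hl2, hr2]
    constructor
    · rintro (h | ⟨k, h1, h2, h3⟩ | ⟨k, h1, h2, h3⟩)
      · exact ⟨m, him, hmj, h⟩
      · exact ⟨k, h1, by omega, h3⟩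
      · exact ⟨k, by omega, h2, h3⟩
    · rintro ⟨k, h1, h2, h3⟩
      rcases lt_trichotomy k m with hk | hk | hk
      · exact Or.inr (Or.inl ⟨k, h1, hk, h3⟩)
      · subst hk; exact Or.inl h3
      · exact Or.inr (Or.inr ⟨k, hk, h2, h3⟩)
  · intro p q hp hpq hq ha
    rw [ht2.mem_iff, List.mem_cons, List.mem_cons, List.mem_append]
    rcases hcross p q hp hpq hq ha with h | h | h
    · exact Or.inl h
    · rcases hl3 p q hp hpq h ha with ⟨rfl, rfl⟩ | h'
      · exact Or.inr (Or.inl rfl)
      · exact Or.inr (Or.inr (Or.inr (Or.inl h')))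
    · rcases hr3 p q h hpq hq ha with ⟨rfl, rfl⟩ | h'
      · exact Or.inr (Or.inr (Or.inl rfl))
      · exact Or.inr (Or.inr (Or.inr (Or.inr h')))
  · intro hb
    rw [hdeg, if_pos (Or.inl rfl), if_neg (by
      rintro (h | h)
      · exact hsne hin hmn (by omega) h
      · exact hsne hin hjn (by omega) h),
      hr9 (s i) (fun k h1 h2 => hsne hin (by omega) (by omega))]
    rcases hbit0 hb with h | h
    · have h1 := hl4 rfl
      have h2 := R_lt him hmj h
      omega
    · rw [hl0 h]
      simp [Tr.edges, deg]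
  · rw [hdeg, if_pos (Or.inl rfl), if_neg (by
      rintro (h | h)
      · exact hsne hin hmn (by omega) h
      · exact hsne hin hjn (by omega) h),
      hr9 (s i) (fun k h1 h2 => hsne hin (by omega) (by omega))]
    have h1 := hl4 rfl
    have h2 : R Adj i m ≤ R Adj i j := R_mono hmj.le
    omega
  · intro hb
    rw [hdeg, if_pos (Or.inr rfl), if_neg (by
      rintro (h | h)
      · exact hsne hjn hin (by omega) h
      · exact hsne hjn hmn (by omega) h),
      hl9 (s j) (fun k h1 h2 => hsne hjn (by omega) (by omega))]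
    rcases hbit1 hb with h | h
    · have h1 := hr6 rfl
      have h2 := L_lt him hmj h
      omega
    · rw [hr0 h]
      simp [Tr.edges, deg]
  · rw [hdeg, if_pos (Or.inr rfl), if_neg (by
      rintro (h | h)
      · exact hsne hjn hin (by omega) h
      · exact hsne hjn hmn (by omega) h),
      hl9 (s j) (fun k h1 h2 => hsne hjn (by omega) (by omega))]
    have h1 := hr6 rfl
    have h2 : L Adj m j ≤ L Adj i j := L_mono him.le
    omega
  · intro k h1 h2
    rw [hdeg]
    rcases lt_trichotomy k m with hk | hk | hk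
    · rw [if_neg (by
        rintro (h | h)
        · exact hsne (by omega) hin (by omega) h
        · exact hsne (by omega) hmn (by omega) h), if_neg (by
        rintro (h | h)
        · exact hsne (by omega) hmn (by omega) h
        · exact hsne (by omega) hjn (by omega) h),
        hr9 (s k) (fun k' h1 h2 => hsne (by omega) (by omega) (by omega))]
      have := hl8 k h1 hk
      omega
    · subst hk
      rw [if_pos (Or.inr rfl), if_pos (Or.inl rfl)]
      have := hΔ i k j him hmj hjn
      omega
    · rw [if_neg (by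
        rintro (h | h)
        · exact hsne (by omega) hin (by omega) h
        · exact hsne (by omega) hmn (by omega) h), if_neg (by
        rintro (h | h)
        · exact hsne (by omega) hmn (by omega) h
        · exact hsne (by omega) hjn (by omega) h),
        hl9 (s k) (fun k' h1 h2 => hsne (by omega) (by omega) (by omega))]
      have := hr8 k hk h2
      omega
  · intro w hw
    rw [hdeg, if_neg (by
      rintro (h | h)
      · exact hw i le_rfl (by omega) h
      · exact hw m (by omega) (by omega) h), if_neg (by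
      rintro (h | h)
      · exact hw m (by omega) (by omega) h
      · exact hw j (by omega) (by omega) h),
      hl9 w (fun k h1 h2 => hw k h1 (by omega)), hr9 w (fun k h1 h2 => hw k (by omega) h2)]

lemma good_exists [DecidableEq V] {n : ℕ} (s : ℕ → V) (r : V → ℕ) (Adj : ℕ → ℕ → Prop) (Δ : ℕ)
    (hs : ∀ a b, a < n → b < n → s a = s b → a = b) (hr : Function.Injective r)
    (hsymm : ∀ a b, Adj a b → Adj b a)
    (hout : ∀ a b c d, a < c → c < b → b < d → d < n → Adj a b → Adj c d → False)
    (hΔ : ∀ i m j, i < m → m < j → j < n → L Adj i m + R Adj m j ≤ Δ) :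
    ∀ (N : ℕ) (bit : Bool) (i j : ℕ), j - i ≤ N → i < j → j < n →
      ∃ t, Good s r Adj Δ bit i j t := by
  classical
  intro N
  induction N with
  | zero => intro bit i j h1 h2; omega
  | succ N ih =>
    intro bit i j hN hij hjn
    by_cases hj : j = i + 1
    · subst hj
      refine ⟨Tr.leaf, fun _ => rfl, ?_, ?_, ?_, ?_, ?_, ?_, ?_, ?_, ?_⟩
      · simp [Tr.labels]
      · intro v
        simp only [Tr.labels, List.not_mem_nil, false_iff]
        rintro ⟨k, h1, h2, -⟩
        omega
      · intro p q h1 h2 h3 _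
        exact Or.inl ⟨by omega, by omega⟩
      all_goals simp [Tr.edges, deg]
    · cases bit with
      | false =>
        by_cases hex : ∃ k, i < k ∧ k < j ∧ Adj i k
        · -- the largest neighbour
          set F : Finset ℕ := (Finset.Ioo i j).filter fun k => Adj i k with hF
          have hFn : F.Nonempty := by
            obtain ⟨k, h1, h2, h3⟩ := hex
            exact ⟨k, by simp [hF, h1, h2, h3]⟩
          obtain ⟨m, hmF, hmax⟩ := F.exists_max_image id hFn
          simp only [hF, Finset.mem_filter, Finset.mem_Ioo, id_eq] at hmF hmax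
          obtain ⟨tl, htl⟩ := ih false i m (by omega) hmF.1.1 (by omega)
          obtain ⟨tr, htr⟩ := ih true m j (by omega) hmF.1.2 hjn
          refine good_step s r Adj Δ hs hr hΔ false i m j hmF.1.1 hmF.1.2 hjn tl tr htl htr
            ?_ (fun _ => Or.inl hmF.2) (by simp)
          intro p q hp hpq hq ha
          by_contra hcon
          push Not at hcon
          obtain ⟨h1, h2, h3⟩ := hcon
          rcases Nat.eq_or_lt_of_le hp with rfl | hp'
          · have : q ≠ j := h1 rfl
            have := hmax q ⟨⟨by omega, by omega⟩, ha⟩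
            omega
          · exact hout i m p q hp' h3 h2 (by omega) hmF.2 ha
        · obtain ⟨tl, htl⟩ := ih false i (i + 1) (by omega) (by omega) (by omega)
          obtain ⟨tr, htr⟩ := ih true (i + 1) j (by omega) (by omega) hjn
          refine good_step s r Adj Δ hs hr hΔ false i (i + 1) j (by omega) (by omega) hjn
            tl tr htl htr ?_ (fun _ => Or.inr rfl) (by simp)
          intro p q hp hpq hq ha
          by_contra hcon
          push Not at hcon
          obtain ⟨h1, h2, h3⟩ := hcon
          obtain rfl : p = i := by omega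
          have : q ≠ j := h1 rfl
          exact hex ⟨q, by omega, by omega, ha⟩
      | true =>
        by_cases hex : ∃ k, i < k ∧ k < j ∧ Adj j k
        · set F : Finset ℕ := (Finset.Ioo i j).filter fun k => Adj j k with hF
          have hFn : F.Nonempty := by
            obtain ⟨k, h1, h2, h3⟩ := hex
            exact ⟨k, by simp [hF, h1, h2, h3]⟩
          obtain ⟨m, hmF, hmin⟩ := F.exists_min_image id hFn
          simp only [hF, Finset.mem_filter, Finset.mem_Ioo, id_eq] at hmF hmin
          obtain ⟨tl, htl⟩ := ih false i m (by omega) hmF.1.1 (by omega)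
          obtain ⟨tr, htr⟩ := ih true m j (by omega) hmF.1.2 hjn
          refine good_step s r Adj Δ hs hr hΔ true i m j hmF.1.1 hmF.1.2 hjn tl tr htl htr
            ?_ (by simp) (fun _ => Or.inl hmF.2)
          intro p q hp hpq hq ha
          by_contra hcon
          push Not at hcon
          obtain ⟨h1, h2, h3⟩ := hcon
          rcases Nat.eq_or_lt_of_le hq with rfl | hq'
          · have hpi : p ≠ i := fun h => h1 h rfl
            have := hmin p ⟨⟨by omega, by omega⟩, hsymm _ _ ha⟩
            omega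
          · exact hout p q m j h3 h2 hq' hjn ha (hsymm _ _ hmF.2)
        · obtain ⟨m, rfl⟩ : ∃ m, j = m + 1 := ⟨j - 1, by omega⟩
          obtain ⟨tl, htl⟩ := ih false i m (by omega) (by omega) (by omega)
          obtain ⟨tr, htr⟩ := ih true m (m + 1) (by omega) (by omega) hjn
          refine good_step s r Adj Δ hs hr hΔ true i m (m + 1) (by omega) (by omega) hjn
            tl tr htl htr ?_ (by simp) (fun _ => Or.inr rfl)
          intro p q hp hpq hq ha
          by_contra hcon
          push Not at hcon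
          obtain ⟨h1, h2, h3⟩ := hcon
          obtain rfl : q = m + 1 := by omega
          have hpi : p ≠ i := fun h => h1 h rfl
          exact hex ⟨p, by omega, by omega, hsymm _ _ ha⟩

/-- A topological order. -/
lemma exists_rank [Fintype V] (A : V → V → Prop) (hA : ∀ v, ¬ Relation.TransGen A v v) :
    ∃ r : V → ℕ, Function.Injective r ∧ ∀ u v, A u v → r u < r v := by
  classical
  let P : PartialOrder V :=
    { le := Relation.ReflTransGen A
      le_refl := fun _ => Relation.ReflTransGen.refl
      le_trans := fun _ _ _ h1 h2 => h1.trans h2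
      le_antisymm := fun a b h1 h2 => by
        rcases (Relation.reflTransGen_iff_eq_or_transGen.1 h1) with h | h
        · exact h.symm
        · exact absurd (h.trans_left h2) (hA a) }
  let T : V → LinearExtension V := fun v => toLinearExtension v
  have hTinj : Function.Injective T := fun a b h => h
  have hT : ∀ u v, A u v → T u < T v := by
    intro u v h
    have h1 : u ≤ v := Relation.ReflTransGen.single h
    have h2 : T u ≤ T v := toLinearExtension.monotone h1
    refine lt_of_le_of_ne h2 ?_
    intro h3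
    have h4 := hTinj h3
    subst h4
    exact hA u (Relation.TransGen.single h)
  let r : V → ℕ := fun v => (Finset.univ.filter fun w => T w < T v).card
  have hr : ∀ u v, T u < T v → r u < r v := by
    intro u v h
    apply Finset.card_lt_card
    rw [Finset.ssubset_iff_of_subset]
    · exact ⟨u, by simp [h], by simp⟩
    · intro w hw
      simp only [Finset.mem_filter, Finset.mem_univ, true_and] at hw ⊢
      exact hw.trans h
  refine ⟨r, ?_, fun u v h => hr u v (hT u v h)⟩
  intro u v h
  rcases lt_trichotomy (T u) (T v) with h1 | h1 | h1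
  · exact absurd h (hr u v h1).ne
  · exact hTinj h1
  · exact absurd h (hr v u h1).ne'

/-- An enumeration of the vertices along the line. -/
lemma exists_enum [Fintype V] (f : V → ℕ) (hf : Function.Injective f) (hV : 2 ≤ Fintype.card V) :
    ∃ s : ℕ → V, (∀ a b, a < b → b < Fintype.card V → f (s a) < f (s b)) ∧
      ∀ v, ∃ k, k < Fintype.card V ∧ v = s k := by
  classical
  let _ : LinearOrder V := LinearOrder.lift' f hf
  have hlt : ∀ a b : V, a < b → f a < f b := fun a b h => h
  let e := (Finset.univ : Finset V).orderIsoOfFin (k := Fintype.card V) (by simp)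
  have hpos : 0 < Fintype.card V := by omega
  refine ⟨fun k => if h : k < Fintype.card V then (e ⟨k, h⟩ : V) else (e ⟨0, hpos⟩ : V), ?_, ?_⟩
  · intro a b hab hb
    have ha : a < Fintype.card V := by omega
    simp only [ha, hb, dif_pos]
    apply hlt
    have : e ⟨a, ha⟩ < e ⟨b, hb⟩ := e.strictMono (by simpa using hab)
    exact this
  · intro v
    obtain ⟨k, hk⟩ := e.surjective ⟨v, Finset.mem_univ v⟩
    refine ⟨k.1, k.2, ?_⟩
    simp only [k.2, dif_pos]
    rw [Fin.eta, hk]

theorem partB : PartB := by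
  classical
  intro V _ instD A Δ hV hacyc hout hdeg
  obtain ⟨r, hrinj, hr⟩ := exists_rank A hacyc
  obtain ⟨f, hf, hfo⟩ := hout
  obtain ⟨s, hs1, hs2⟩ := exists_enum f hf hV
  set n := Fintype.card V with hn
  have hsinj : ∀ a b, a < n → b < n → s a = s b → a = b := by
    intro a b ha hb h
    rcases lt_trichotomy a b with h1 | h1 | h1
    · exact absurd (congrArg f h) (hs1 a b h1 hb).ne
    · exact h1
    · exact absurd (congrArg f h) (hs1 b a h1 ha).ne'
  set Adj : ℕ → ℕ → Prop := fun i j => (SimpleGraph.fromRel A).Adj (s i) (s j) with hAdj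
  have hcard : ∀ m (F : Finset ℕ), (∀ k ∈ F, k < n ∧ Adj m k) → F.card ≤ Δ := by
    intro m F hF
    have hsub : ((F.image s : Finset V) : Set V) ⊆ (SimpleGraph.fromRel A).neighborSet (s m) := by
      intro v hv
      rw [Finset.mem_coe, Finset.mem_image] at hv
      obtain ⟨k, hk, rfl⟩ := hv
      exact (hF k hk).2
    have h1 := (Set.encard_le_encard hsub).trans (hdeg (s m))
    rw [Set.encard_coe_eq_coe_finsetCard, Finset.card_image_of_injOn] at h1
    · exact_mod_cast h1
    · intro a ha b hb hab
      exact hsinj a b (hF a ha).1 (hF b hb).1 hab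
  have hΔ : ∀ i m j, i < m → m < j → j < n → L Adj i m + R Adj m j ≤ Δ := by
    intro i m j him hmj hjn
    unfold L R
    rw [← Finset.card_union_of_disjoint]
    · apply hcard m
      intro k hk
      simp only [Finset.mem_union, Finset.mem_filter, Finset.mem_Ioo] at hk
      rcases hk with hk | hk
      · exact ⟨by omega, hk.2⟩
      · exact ⟨by omega, hk.2⟩
    · rw [Finset.disjoint_left]
      intro k hk hk'
      simp only [Finset.mem_filter, Finset.mem_Ioo] at hk hk'
      omega
  obtain ⟨t, ht⟩ := good_exists (n := n) s r Adj Δ hsinj hrinj (fun a b h => h.symm)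
    (by
      intro a b c d h1 h2 h3 h4 h5 h6
      exact hfo (s a) (s b) (s c) (s d) h5 h6 (hs1 a c h1 (by omega)) (hs1 c b h2 (by omega))
        (hs1 b d h3 h4))
    hΔ n true 0 (n - 1) (by omega) (by omega) (by omega)
  obtain ⟨ht0, ht1, ht2, ht3, ht4, ht5, ht6, ht7, ht8, ht9⟩ := ht
  have hne : s 0 ≠ s (n - 1) := fun h => by
    have := hsinj 0 (n - 1) (by omega) (by omega) h
    omega
  have hrne : r (s 0) ≠ r (s (n - 1)) := fun h => hne (hrinj h)
  have hmem : ∀ v, v = (ori r (s 0) (s (n - 1))).1 ∨ v = (ori r (s 0) (s (n - 1))).2 ↔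
      v = s 0 ∨ v = s (n - 1) := fun v => inc_ori r (s 0) (s (n - 1)) v
  have hne' : (ori r (s 0) (s (n - 1))).1 ≠ (ori r (s 0) (s (n - 1))).2 := by
    unfold ori
    split_ifs
    · exact hne
    · exact hne.symm
  have hnot : ∀ v, (v = s 0 ∨ v = s (n - 1)) → v ∉ t.labels := by
    intro v hv hv'
    rw [ht2] at hv'
    obtain ⟨k, h1, h2, h3⟩ := hv'
    rcases hv with h | h
    · have := hsinj 0 k (by omega) (by omega) (h.symm.trans h3)
      omega
    · have := hsinj (n - 1) k (by omega) (by omega) (h.symm.trans h3)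
      omega
  refine ⟨t, (ori r (s 0) (s (n - 1))).1, (ori r (s 0) (s (n - 1))).2, ?_, ?_, ?_, ?_⟩
  · rw [List.nodup_cons, List.nodup_cons]
    refine ⟨?_, ?_, ht1⟩
    · rw [List.mem_cons]
      rintro (h | h)
      · exact hne' h
      · exact hnot _ ((hmem _).1 (Or.inl rfl)) h
    · exact hnot _ ((hmem _).1 (Or.inr rfl))
  · intro v
    rw [List.mem_cons, List.mem_cons, ← or_assoc, hmem v, ht2]
    obtain ⟨k, hk, rfl⟩ := hs2 v
    by_cases h0 : k = 0
    · subst h0; simp
    by_cases h1 : k = n - 1
    · subst h1; simp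
    exact Or.inr ⟨k, by omega, by omega, rfl⟩
  · intro u v huv
    have hruv := hr u v huv
    obtain ⟨p, hp, rfl⟩ := hs2 u
    obtain ⟨q, hq, rfl⟩ := hs2 v
    have hpq : p ≠ q := by
      rintro rfl
      exact lt_irrefl _ hruv
    have hspq : s p ≠ s q := fun h => hpq (hsinj p q hp hq h)
    have key : ∀ p q, p < q → q < n → Adj p q → ori r (s p) (s q) ∈
        t.allE (ori r (s 0) (s (n - 1))).1 (ori r (s 0) (s (n - 1))).2 := by
      intro p q h1 h2 h3
      rcases ht3 p q (Nat.zero_le _) h1 (by omega) h3 with ⟨rfl, rfl⟩ | h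
      · exact Or.inl rfl
      · exact Or.inr h
    rcases lt_or_gt_of_ne hpq with h | h
    · have := key p q h hq (by
        rw [hAdj]
        simp only [SimpleGraph.fromRel_adj]
        exact ⟨hspq, Or.inl huv⟩)
      rwa [ori_pos hruv] at this
    · have := key q p h hp (by
        rw [hAdj]
        simp only [SimpleGraph.fromRel_adj]
        exact ⟨hspq.symm, Or.inr huv⟩)
      rwa [ori_neg hruv] at this
  · intro w
    obtain ⟨k, hk, rfl⟩ := hs2 w
    by_cases h0 : k = 0
    · subst h0
      have hR : R Adj 0 (n - 1) ≤ Δ := by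
        apply hcard 0
        intro k hk
        simp only [Finset.mem_filter, Finset.mem_Ioo] at hk
        exact ⟨by omega, hk.2⟩
      omega
    by_cases h1 : k = n - 1
    · subst h1
      have hL : L Adj 0 (n - 1) ≤ Δ := by
        apply hcard (n - 1)
        intro k hk
        simp only [Finset.mem_filter, Finset.mem_Ioo] at hk
        exact ⟨by omega, hk.2⟩
      omega
    exact ht8 k (by omega) (by omega)

end Pool.Agent.Helper84.UpLoc
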